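import Pool.Agent.Lib.FPC.Mean
import Pool.Agent.Lib.FPC.Brg
import Pool.Agent.Lib.FPC.Pot

/-!
# The lower bound for the mean passage time

Row `LowE`.  Take `R = 3 n + j.natAbs`, `k = (j + R).toNat`, `M = k + n + R`.  For every `a : Fin n → Bool`,
`η : Fin M → Bool` and almost every `τ`: `n + hgt R (ex1 a) (ex2 c) (ex1 η) n k ≤ T τ 0 ![n, j]` with
`c (x, l) = decide (τ (he x (l - R)) = 3)` (`pot`; `hR` by `H_le_x`, `H_lip`, `hgt_zero`).  Integrate over `τ`
(`brg`, `brg_int`, `Dist.int_T`), then average over `a`, `η` (`Ex_le`, `Ex_const`, `Ex_comm`), `mean_hgt`.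
-/

set_option autoImplicit false

open MeasureTheory Filter Topology Finset Pool.Agent.Lib.MP_a83deb_pr

namespace Pool.Agent.Lib.FPC

private theorem hgt_le (R n k : ℕ) (a : ℕ → Bool) (b : ℕ → ℕ → Bool) (η : ℕ → Bool) :
    hgt R a b η n k ≤ |(k : ℤ) - R| + 2 * n := by
  have h1 := H_le_x (-∑ i ∈ range R, sg (η i)) a b η n k
  have h2 := H_lip (-∑ i ∈ range R, sg (η i)) a b η 0 R k
  have h3 : H (-∑ i ∈ range R, sg (η i)) a b η 0 R = 0 := hgt_zero R a b η
  rw [h3, sub_zero] at h2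
  have h4 := (abs_le.1 h2).2
  show H (-∑ i ∈ range R, sg (η i)) a b η n k ≤ _
  linarith

theorem lowE {q ρ : ℝ} (hq0 : 0 < q) (hq1 : q < 1) [IsProbabilityMeasure (nuq q)] (hρ0 : 0 ≤ ρ)
    (hρ1 : ρ ≤ 1) (n : ℕ) (j : ℤ) :
    (n : ℝ) + n * G q ρ + j * (2 * ρ - 1) ≤ et 2 (nuq q) ![(n : ℤ), j] := by
  obtain ⟨R, hR⟩ : ∃ R : ℕ, R = 3 * n + j.natAbs := ⟨_, rfl⟩
  obtain ⟨k, hk⟩ : ∃ k : ℕ, (k : ℤ) = j + R := ⟨(j + R).toNat, by omega⟩
  obtain ⟨M, hM⟩ : ∃ M : ℕ, M = k + n + R := ⟨_, rfl⟩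
  have hkj : (k : ℤ) - R = j := by omega
  have hkjR : (k : ℝ) - R = j := by
    have : ((((k : ℤ) - R : ℤ)) : ℝ) = (j : ℝ) := by rw [hkj]
    push_cast at this
    exact this
  have hqρ : q * ρ < 1 := by nlinarith
  have hden : 1 - q * ρ ≠ 0 := by linarith
  have hb0 : 0 ≤ bet q ρ := div_nonneg (by linarith) (by linarith)
  have hb1 : bet q ρ ≤ 1 := by
    unfold bet
    rw [div_le_one (by linarith)]
    nlinarith
  have hD := dist_nuq hq0.le hq1.le
  -- the inequality for fixed boundary data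
  have key : ∀ (a : Fin n → Bool) (η : Fin M → Bool),
      Ex q (fun c : Fin n × Fin M → Bool => (hgt R (ex1 a) (ex2 c) (ex1 η) n k : ℝ)) ≤
        et 2 (nuq q) ![(n : ℤ), j] - n := by
    intro a η
    have hinj : Function.Injective fun i : Fin n × Fin M => he (i.1 : ℤ) ((i.2 : ℤ) - R) := by
      rintro ⟨x, l⟩ ⟨x', l'⟩ h
      obtain ⟨h1, h2⟩ := he_inj h
      have h3 : (x : ℤ) = (x' : ℤ) := h1
      have h4 : (l : ℤ) - R = (l' : ℤ) - R := h2
      have h5 : x = x' := Fin.ext (by omega)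
      have h6 : l = l' := Fin.ext (by omega)
      rw [h5, h6]
    have h1 := brg hq0.le hq1.le (fun i : Fin n × Fin M => he (i.1 : ℤ) ((i.2 : ℤ) - R)) hinj
      (fun c => (n : ℝ) + (hgt R (ex1 a) (ex2 c) (ex1 η) n k : ℝ))
    rw [Ex_add, Ex_const] at h1
    have h2 : (n : ℝ) + Ex q (fun c : Fin n × Fin M → Bool => (hgt R (ex1 a) (ex2 c) (ex1 η) n k : ℝ)) ≤
        et 2 (nuq q) ![(n : ℤ), j] := by
      rw [← h1]
      refine integral_mono_ae (brg_int (fun i : Fin n × Fin M => he (i.1 : ℤ) ((i.2 : ℤ) - R))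
        (fun c => (n : ℝ) + (hgt R (ex1 a) (ex2 c) (ex1 η) n k : ℝ))) (hD.int_T _ _) ?_
      filter_upwards [hD.ae (d := 2)] with τ hτ
      have h3 := pot R n k (ex1 a) (ex2 fun i : Fin n × Fin M => decide (τ (he (i.1 : ℤ) ((i.2 : ℤ) - R)) = 3))
        (ex1 η) τ hτ (fun x l _ hx => by
          unfold ex2 at hx
          split_ifs at hx with hxl
          have := of_decide_eq_true hx
          exact this.ge) (by
          have h4 := hgt_le R n k (ex1 a)
            (ex2 fun i : Fin n × Fin M => decide (τ (he (i.1 : ℤ) ((i.2 : ℤ) - R)) = 3)) (ex1 η)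
          rw [hkj] at h4
          have h5 : |j| = (j.natAbs : ℤ) := Int.abs_eq_natAbs j
          omega)
      rw [hkj] at h3
      exact h3
    linarith
  have hmean := mean_hgt q ρ hden n M R k (by omega) (by omega)
  rw [hkjR] at hmean
  have h1 : E3 q ρ n M (fun a b η => (hgt R a b η n k : ℝ)) ≤ et 2 (nuq q) ![(n : ℤ), j] - n := by
    unfold E3
    rw [Ex_comm]
    calc Ex (bet q ρ) (fun a : Fin n → Bool => Ex q (fun b : Fin n × Fin M → Bool =>
          Ex ρ (fun η : Fin M → Bool => (hgt R (ex1 a) (ex2 b) (ex1 η) n k : ℝ))))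
        ≤ Ex (bet q ρ) (fun _ : Fin n → Bool => et 2 (nuq q) ![(n : ℤ), j] - n) := by
          refine Ex_le hb0 hb1 fun a => ?_
          rw [Ex_comm]
          calc Ex ρ (fun η : Fin M → Bool => Ex q (fun b : Fin n × Fin M → Bool =>
                (hgt R (ex1 a) (ex2 b) (ex1 η) n k : ℝ)))
              ≤ Ex ρ (fun _ : Fin M → Bool => et 2 (nuq q) ![(n : ℤ), j] - n) :=
                Ex_le hρ0 hρ1 fun η => key a η
            _ = _ := Ex_const _ _
      _ = _ := Ex_const _ _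
  rw [hmean] at h1
  linarith

end Pool.Agent.Lib.FPC
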