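import Pool.Agent.Lib.FPC.LowE

/-!
# The lower bound for the time constant

Row `LowMu`.  `u = x 1 / (q x 0) ∈ [-1, 1]`, `ρ = (1 + u) / 2`.  `rnd (m • x) = ![round (m x 0), round (m x 1)]`,
`lowE`, divide by `m`, limit (`IsTC`): `M x ≥ x 0 (1 + G q ρ) + x 1 (2 ρ - 1)` (`low_G`), and
`G q ρ = 2 q ρ (1 - ρ) / (1 - q ρ) ≥ 2 q ρ (1 - ρ) = q (1 - u²) / 2`.
-/

set_option autoImplicit false

open MeasureTheory Filter Topology Finset Pool.Agent.Lib.MP_a83deb_pr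

namespace Pool.Agent.Lib.FPC

private theorem lm_round (a : ℝ) : Tendsto (fun n : ℕ => ((round ((n : ℝ) * a) : ℤ) : ℝ) / n) atTop (𝓝 a) := by
  rw [tendsto_iff_norm_sub_tendsto_zero]
  refine squeeze_zero' (Eventually.of_forall fun n => norm_nonneg _) ?_ tendsto_one_div_atTop_nhds_zero_nat
  filter_upwards [eventually_gt_atTop 0] with n hn
  have hn' : (0 : ℝ) < n := Nat.cast_pos.2 hn
  have h1 := abs_sub_round ((n : ℝ) * a)
  have h2 : ((round ((n : ℝ) * a) : ℤ) : ℝ) / n - a = -(((n : ℝ) * a - round ((n : ℝ) * a)) / n) := by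
    field_simp
    ring
  rw [h2, norm_neg, norm_div, Real.norm_eq_abs, Real.norm_eq_abs, abs_of_pos hn']
  gcongr
  linarith

theorem low_G {q ρ : ℝ} (hq0 : 0 < q) (hq1 : q < 1) [IsProbabilityMeasure (nuq q)] (hρ0 : 0 ≤ ρ)
    (hρ1 : ρ ≤ 1) {M : EuclideanSpace ℝ (Fin 2) → ℝ} (hM : IsTC (nuq q) M)
    (x : EuclideanSpace ℝ (Fin 2)) (hx : 0 ≤ x 0) :
    x 0 * (1 + G q ρ) + x 1 * (2 * ρ - 1) ≤ M x := by
  have h1 : Tendsto (fun n : ℕ => ((round ((n : ℝ) * x 0) : ℤ) : ℝ) / n * (1 + G q ρ) +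
      ((round ((n : ℝ) * x 1) : ℤ) : ℝ) / n * (2 * ρ - 1)) atTop (𝓝 (x 0 * (1 + G q ρ) + x 1 * (2 * ρ - 1))) :=
    ((lm_round (x 0)).mul_const _).add ((lm_round (x 1)).mul_const _)
  refine le_of_tendsto_of_tendsto' h1 (hM x) fun n => ?_
  have h2 : 0 ≤ round ((n : ℝ) * x 0) := by
    rw [round_eq]
    exact Int.floor_nonneg.2 (by positivity)
  obtain ⟨N, hN⟩ := Int.eq_ofNat_of_zero_le h2
  have h3 : rnd ((n : ℝ) • x) = ![(N : ℤ), round ((n : ℝ) * x 1)] := by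
    funext i
    fin_cases i
    · show round (((n : ℝ) • x) 0) = (N : ℤ)
      rw [← hN]
      simp
    · show round (((n : ℝ) • x) 1) = round ((n : ℝ) * x 1)
      simp
  have h4 := lowE (q := q) (ρ := ρ) hq0 hq1 hρ0 hρ1 N (round ((n : ℝ) * x 1))
  rw [h3, hN]
  have h5 : (((N : ℤ) : ℝ)) / n * (1 + G q ρ) + ((round ((n : ℝ) * x 1) : ℤ) : ℝ) / n * (2 * ρ - 1) =
      ((N : ℝ) + N * G q ρ + ((round ((n : ℝ) * x 1) : ℤ) : ℝ) * (2 * ρ - 1)) / n := by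
    rw [Int.cast_natCast]
    ring
  show (((Int.ofNat N : ℤ) : ℝ)) / n * (1 + G q ρ) + ((round ((n : ℝ) * x 1) : ℤ) : ℝ) / n * (2 * ρ - 1) ≤ _
  rw [show (Int.ofNat N : ℤ) = (N : ℤ) from rfl, h5]
  exact div_le_div_of_nonneg_right h4 (Nat.cast_nonneg n)

theorem lowMu {q : ℝ} (hq0 : 0 < q) (hq1 : q < 1) [IsProbabilityMeasure (nuq q)]
    {M : EuclideanSpace ℝ (Fin 2) → ℝ} (hM : IsTC (nuq q) M) (x : EuclideanSpace ℝ (Fin 2))
    (hx : 0 < x 0) (hx1 : |x 1| ≤ q * x 0) :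
    x 0 * (1 + q / 2) + x 1 ^ 2 / (2 * q * x 0) ≤ M x := by
  have hqx : 0 < q * x 0 := mul_pos hq0 hx
  set u : ℝ := x 1 / (q * x 0) with hu
  have hux : x 1 = q * x 0 * u := by
    rw [hu]
    field_simp
  have hu1 : |u| ≤ 1 := by
    rw [hu, abs_div, abs_of_pos hqx]
    exact (div_le_one hqx).2 hx1
  obtain ⟨hu2, hu3⟩ := abs_le.1 hu1
  have h1 := low_G (q := q) (ρ := (1 + u) / 2) hq0 hq1 (by linarith) (by linarith) hM x hx.le
  have h2 : q * (1 - u ^ 2) / 2 ≤ G q ((1 + u) / 2) := by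
    unfold G bet
    have h3 : 0 < 1 - q * ((1 + u) / 2) := by nlinarith
    rw [← mul_div_assoc, le_div_iff₀ h3]
    have h4 : 0 ≤ 1 - u ^ 2 := by nlinarith
    have h5 : 0 ≤ q * (1 - u ^ 2) / 2 * (q * ((1 + u) / 2)) := by
      have : 0 ≤ (1 + u) / 2 := by linarith
      positivity
    nlinarith
  have h6 : x 0 * (1 + q * (1 - u ^ 2) / 2) + x 1 * u ≤ M x := by
    have h7 : x 0 * (1 + q * (1 - u ^ 2) / 2) ≤ x 0 * (1 + G q ((1 + u) / 2)) := by gcongr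
    have h8 : x 1 * (2 * ((1 + u) / 2) - 1) = x 1 * u := by ring
    rw [h8] at h1
    linarith
  have h9 : x 0 * (1 + q / 2) + x 1 ^ 2 / (2 * q * x 0) = x 0 * (1 + q * (1 - u ^ 2) / 2) + x 1 * u := by
    rw [hux]
    field_simp
    ring
  rw [h9]
  exact h6

end Pool.Agent.Lib.FPC
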