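import Pool.Agent.Lib.FPC.Upr3
import Pool.Agent.Lib.FPC.Exit2

/-!
# V3: the upper bound for the time constant, general laws

Row `UpMu3`.  As `UpMu` (V2, copy) with `upr3` in place of `upr`: `M (1, w) ≤ 1 + (1 + A) (G q ρ + w v) + 8 q A`, `G_value`, `wof_near`, `IsTC.lip`
(`mean = 1 + A`): `M (1, q v) ≤ 1 + q (1 + v²)/2 + 6.4 q² (1 + A) + A q + 8 q A`, and `6.4 q² A ≤ 1.6 q A`.  `v = 1`: continuity (`IsTC.lip`);
`v < 0`: `IsTC.sp`.  For `q > 1/4`: `M x ≤ (1 + A) l1 x` (`IsTC.le`), `A + q + A q ≤ 5 A q + 4 q²`.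
-/

set_option autoImplicit false

open MeasureTheory Filter Topology Finset Pool.Agent.Lib.MP_a83deb_pr

namespace Pool.Agent.Lib.FPC

variable {ν : Measure ℝ} [IsProbabilityMeasure ν] {q A : ℝ}

private theorem um_rnd (n : ℕ) (w : ℝ) : rnd ((n : ℝ) • (!₂[1, w] : EuclideanSpace ℝ (Fin 2))) = ![(n : ℤ), round (n * w)] := by
  funext i
  fin_cases i
  · show round ((n : ℝ) * 1) = (n : ℤ)
    rw [mul_one, round_natCast]
  · rfl

private theorem um_l1 (a b : ℝ) : l1 (!₂[a, b] : EuclideanSpace ℝ (Fin 2)) = |a| + |b| := by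
  simp [l1, Fin.sum_univ_two]

private theorem um_mean (h : Law3 ν q A) : mean ν = 1 + A := h.mean

private theorem um_A (h : Law3 ν q A) (hq0 : 0 < q) : 0 ≤ A := by
  have := h.two_q_le
  linarith

private theorem um_lip (h : Law3 ν q A)
    {M : EuclideanSpace ℝ (Fin 2) → ℝ} (hM : IsTC ν M) (a b : ℝ) :
    M !₂[1, a] ≤ M !₂[1, b] + (1 + A) * |a - b| := by
  have h1 := IsTC.lip h.lawL.dist hM !₂[1, a] !₂[1, b]
  have h2 : (!₂[1, a] : EuclideanSpace ℝ (Fin 2)) - !₂[1, b] = !₂[0, a - b] := by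
    ext i
    fin_cases i <;> simp
  rw [h2, um_l1, abs_zero, zero_add, um_mean h] at h1
  exact h1

private theorem um_eps (h : Law3 ν q A) {ρ : ℝ} (hq0 : 0 < q) (hq1 : q ≤ 1 / 4) (hρ0 : 1 / 2 ≤ ρ) (hρ1 : ρ < 1)
    {M : EuclideanSpace ℝ (Fin 2) → ℝ} (hM : IsTC ν M) {ε : ℝ} (hε : 0 < ε) :
    M !₂[1, wof q ρ] ≤ 1 + (1 + A) * (G q ρ + wof q ρ * (2 * ρ - 1) + ε) + 8 * q * A := by
  have hA := um_A h hq0
  have hpos : 0 < 2 - 2 * ρ := by linarith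
  obtain ⟨L, hL'⟩ := exists_nat_ge (6 / (2 - 2 * ρ))
  have hL : 6 ≤ (2 - 2 * ρ) * L := by
    rw [div_le_iff₀ hpos] at hL'
    linarith
  have hL1 : 1 ≤ L := by
    rcases Nat.eq_zero_or_pos L with h | h
    · rw [h] at hL
      norm_num at hL
    · exact h
  obtain ⟨n₀, hn₀⟩ := exit2 hq0 hq1 hρ0 hρ1 hε L hL
  have hw := wof_mem hq0 hq1 hρ0 hρ1.le
  refine le_of_tendsto (hM _) ?_
  filter_upwards [eventually_ge_atTop (max n₀ 1)] with n hn
  have h1 : 1 ≤ n := le_trans (le_max_right _ _) hn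
  have h2 : n₀ ≤ n := le_trans (le_max_left _ _) hn
  have hn' : (0 : ℝ) < n := by exact_mod_cast h1
  have hn1 : (1 : ℝ) ≤ n := by exact_mod_cast h1
  rw [um_rnd, div_le_iff₀ hn']
  have hr := abs_sub_round ((n : ℝ) * wof q ρ)
  have hr2 : |(round ((n : ℝ) * wof q ρ) : ℝ)| ≤ n := by
    have e1 : |(n : ℝ) * wof q ρ| ≤ n * (1 / 2) := by
      rw [abs_mul, abs_of_pos hn']
      exact mul_le_mul_of_nonneg_left hw hn'.le
    have e2 := abs_le.1 e1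
    have e3 := abs_le.1 hr
    rw [abs_le]
    constructor <;> linarith [e2.1, e2.2, e3.1, e3.2]
  have hr3 : |round ((n : ℝ) * wof q ρ)| ≤ (n : ℤ) := by exact_mod_cast hr2
  have hr4 := abs_le.1 hr3
  have hLn : (n : ℤ) ≤ (L * n : ℕ) := by
    have : n ≤ L * n := Nat.le_mul_of_pos_left n hL1
    exact_mod_cast this
  obtain ⟨k, hk⟩ : ∃ k : ℕ, (k : ℤ) = (L * n : ℕ) + round ((n : ℝ) * wof q ρ) :=
    ⟨((L * n : ℕ) + round ((n : ℝ) * wof q ρ)).toNat, Int.toNat_of_nonneg (by linarith [hr4.1])⟩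
  have hk2 : (k : ℤ) - (L * n : ℕ) = round ((n : ℝ) * wof q ρ) := by rw [hk]; ring
  have hk3 : (k : ℝ) = L * n + round ((n : ℝ) * wof q ρ) := by
    have := congrArg (fun z : ℤ => (z : ℝ)) hk
    push_cast at this
    exact this
  have h3 := upr3 h hq0 hq1 L n k h1 (by rw [hk2]; exact hr3)
  rw [hk2] at h3
  have h4 := hn₀ n h2 k (by
    rw [hk3]
    have e3 := abs_le.1 hr
    rw [abs_le]
    constructor <;> linarith [e3.1, e3.2])
  have h5 := mul_le_mul_of_nonneg_left h4 (by linarith : (0 : ℝ) ≤ 1 + A)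
  refine h3.trans ?_
  linarith

private theorem um_wof (h : Law3 ν q A) {ρ : ℝ} (hq0 : 0 < q) (hq1 : q ≤ 1 / 4) (hρ0 : 1 / 2 ≤ ρ) (hρ1 : ρ < 1)
    {M : EuclideanSpace ℝ (Fin 2) → ℝ} (hM : IsTC ν M) :
    M !₂[1, wof q ρ] ≤ 1 + (1 + A) * (G q ρ + wof q ρ * (2 * ρ - 1)) + 8 * q * A := by
  have hA := um_A h hq0
  refine le_of_forall_pos_le_add fun ε hε => ?_
  have h2 := um_eps h hq0 hq1 hρ0 hρ1 hM (ε := ε / (1 + A)) (by positivity)
  have h3 : (1 + A) * (ε / (1 + A)) = ε := by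
    have : (1 + A) ≠ 0 := by positivity
    field_simp
  rw [mul_add, h3] at h2
  linarith

/-- slopes in `[0, 1)` -/
private theorem um_low (h : Law3 ν q A) (hq0 : 0 < q) (hq1 : q ≤ 1 / 4)
    {M : EuclideanSpace ℝ (Fin 2) → ℝ} (hM : IsTC ν M) {v : ℝ} (hv0 : 0 ≤ v) (hv1 : v < 1) :
    M !₂[1, q * v] ≤ 1 + q * (1 + v ^ 2) / 2 + 32 / 5 * q ^ 2 + 53 / 5 * q * A := by
  have hA := um_A h hq0
  have h1 := um_wof h hq0 hq1 (ρ := (1 + v) / 2) (by linarith) (by linarith) hM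
  have h2 := um_lip h hM (q * v) (wof q ((1 + v) / 2))
  have h3 := wof_near hq0 hq1 hv0 hv1.le
  have h4 := G_value hq0 hq1 hv0 hv1.le
  rw [abs_sub_comm] at h3
  have e1 : 2 * ((1 + v) / 2) - 1 = v := by ring
  rw [e1] at h1
  have h5 := mul_le_mul_of_nonneg_left h4 (by linarith : (0 : ℝ) ≤ 1 + A)
  have h6 := mul_le_mul_of_nonneg_left h3 (by linarith : (0 : ℝ) ≤ 1 + A)
  have hqA : 0 ≤ q * A := mul_nonneg hq0.le hA
  have h7 : A * (q * (1 + v ^ 2) / 2) ≤ q * A := by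
    have : v ^ 2 ≤ 1 := by nlinarith
    nlinarith
  have h8 : A * q ^ 2 ≤ q * A / 4 := by nlinarith
  nlinarith

/-- slopes in `[0, 1]` -/
private theorem um_pos (h : Law3 ν q A) (hq0 : 0 < q) (hq1 : q ≤ 1 / 4)
    {M : EuclideanSpace ℝ (Fin 2) → ℝ} (hM : IsTC ν M) {v : ℝ} (hv0 : 0 ≤ v) (hv1 : v ≤ 1) :
    M !₂[1, q * v] ≤ 1 + q * (1 + v ^ 2) / 2 + 7 * q ^ 2 + 11 * q * A := by
  have hA := um_A h hq0
  have hqA : 0 ≤ q * A := mul_nonneg hq0.le hA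
  rcases hv1.lt_or_eq with hv | hv
  · have h1 := um_low h hq0 hq1 hM hv0 hv
    nlinarith [sq_nonneg q]
  · subst hv
    have h1 := um_low h hq0 hq1 hM (v := 1 - q / 4) (by linarith) (by linarith)
    have h2 := um_lip h hM (q * 1) (q * (1 - q / 4))
    have e1 : |q * 1 - q * (1 - q / 4)| = q ^ 2 / 4 := by
      rw [abs_of_nonneg] <;> nlinarith [sq_nonneg q]
    rw [e1] at h2
    have h3 : A * q ^ 2 ≤ q * A / 4 := by nlinarith
    have h4 : q * (1 + (1 - q / 4) ^ 2) / 2 ≤ q := by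
      have : (1 - q / 4) ^ 2 ≤ 1 := by nlinarith
      nlinarith
    nlinarith [sq_nonneg q]

private theorem um_neg (h : Law3 ν q A)
    {M : EuclideanSpace ℝ (Fin 2) → ℝ} (hM : IsTC ν M) (a : ℝ) : M !₂[1, -a] = M !₂[1, a] := by
  have h1 := IsTC.sp h.lawL.dist hM ![1, -1] 1 !₂[1, a]
  rw [← h1]
  congr 1
  ext i
  fin_cases i <;> simp [sp]

theorem upMu3 {ν : Measure ℝ} [IsProbabilityMeasure ν] {q A : ℝ} (h : Law3 ν q A) (hq0 : 0 < q) (hq1 : q < 1)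
    {M : EuclideanSpace ℝ (Fin 2) → ℝ} (hM : IsTC ν M) (v : ℝ) (hv : |v| ≤ 1) :
    M !₂[1, q * v] ≤ 1 + q * (1 + v ^ 2) / 2 + 7 * q ^ 2 + 11 * q * A := by
  obtain ⟨hva, hvb⟩ := abs_le.1 hv
  have hA := um_A h hq0
  rcases le_or_gt q (1 / 4) with hq | hq
  · rcases le_total 0 v with h0 | h0
    · exact um_pos h hq0 hq hM h0 hvb
    · have h1 := um_pos h hq0 hq hM (v := -v) (by linarith) (by linarith)
      have e1 : q * -v = -(q * v) := by ring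
      rw [e1, um_neg h hM] at h1
      have e2 : (-v) ^ 2 = v ^ 2 := by ring
      rw [e2] at h1
      exact h1
  · have h1 := IsTC.le h.lawL.dist hM !₂[1, q * v]
    rw [um_mean h, um_l1, abs_one, abs_mul, abs_of_pos hq0] at h1
    have h2 : q * |v| ≤ q := by nlinarith
    have h3 : (1 + A) * (1 + q * |v|) ≤ (1 + A) * (1 + q) :=
      mul_le_mul_of_nonneg_left (by linarith) (by linarith)
    have h4 : 0 ≤ q * v ^ 2 := mul_nonneg hq0.le (sq_nonneg v)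
    have h5 : A ≤ 4 * (q * A) := by nlinarith
    have h6 : q ≤ 4 * q ^ 2 := by nlinarith
    nlinarith

end Pool.Agent.Lib.FPC
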