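import Pool.Agent.Lib.FPC.Pth
import Pool.Agent.Lib.FPC.Cls
import Pool.Agent.Lib.FPC.Wdg
import Pool.Agent.Lib.FPC.Mono
import Pool.Agent.Lib.FPC.Brg

/-!
# The upper bound for the mean passage time

Row `Upr` (V2: general target row `k`).  `R = L n`, `M = (L + 3) n` (`n ≥ 1`).  For `c : Fin n × Fin M → Bool` choose `r = r(bm (ex2 c))` by `wedge_path` (`bm_adj`): a
function of `bm (ex2 c)`, `cost R r (bm (ex2 c)) n k ≤ wdg R (bm (ex2 c)) n k ≤ wdg R (ex2 c) n k ≤ |k - R| + 2 n` (`wdg_mono`, `bm_le`,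
`H_le_x`), so `r x ≤ R + 2 n < M` (`cost_rows`).
`T_le_path` and `ae_two`: `T ≤ n + #vert + 2 ∑_x bt (ex2 c x (r x)) + 2 ∑_{vertical edges used} v`, `v` = the indicator of `τ = 3` on the
vertical edges, independent of `c` (`brg` with index `(Fin n × Fin M) ⊕ (Fin (n+1) × Fin M)`, `Ex_union`, `he_inj`, `ve_inj`, `he_ne_ve`): mean `2 q #vert`.
`bt (ex2 c x (r x)) = bt (bm (ex2 c) x (r x)) + removed`, `∑_k E 1[r x = k] removed (x,k) ≤ 8 q²` by `cls` with `g = 1[r x = k]`.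
Total: `n + (1 + 2q) E cost + 16 q² n`.
-/

set_option autoImplicit false

open MeasureTheory Filter Topology Finset Pool.Agent.Lib.MP_a83deb_pr

namespace Pool.Agent.Lib.FPC

open Classical in
/-- the chosen path -/
private noncomputable def upr_r (R n k : ℕ) (b : ℕ → ℕ → Bool) : ℕ → ℕ :=
  if h : ∀ x k, b x k = true → b x (k + 1) = false then
    Classical.choose (wedge_path R b h n k) else fun _ => R

private theorem upr_r_cost (R n k : ℕ) (b : ℕ → ℕ → Bool)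
    (h : ∀ x k, b x k = true → b x (k + 1) = false) :
    cost R (upr_r R n k b) b n k ≤ wdg R b n k := by
  unfold upr_r
  rw [dif_pos h]
  exact Classical.choose_spec (wedge_path R b h n k)

private theorem upr_wdg_le (R n k : ℕ) (b : ℕ → ℕ → Bool) :
    wdg R b n k ≤ |(k : ℤ) - R| + 2 * n := by
  have h1 := H_le_x (-∑ i ∈ range R, sg (decide (R ≤ i))) (fun _ => true) b
    (fun k => decide (R ≤ k)) n k
  have h2 := hgt_zero R (fun _ => true) b (fun k => decide (R ≤ k))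
  have h3 := H_lip (-∑ i ∈ range R, sg (decide (R ≤ i))) (fun _ => true) b
    (fun k => decide (R ≤ k)) 0 R k
  unfold hgt at h2
  rw [h2] at h3
  have h4 := (le_abs_self _).trans h3
  unfold wdg hgt
  linarith

private def upr_vn (R n k : ℕ) (r : ℕ → ℕ) : ℤ :=
  ∑ x ∈ range n, |(r x : ℤ) - pr R r x| + |(k : ℤ) - pr R r n|

private theorem upr_cost_eq (R n k : ℕ) (r : ℕ → ℕ) (b : ℕ → ℕ → Bool) :
    cost R r b n k = upr_vn R n k r + 2 * ∑ x ∈ range n, bt (b x (r x)) := by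
  unfold cost upr_vn
  rw [sum_add_distrib, mul_sum]
  ring

private def upr_vs (R n k : ℕ) (r : ℕ → ℕ) (f : ℕ → ℕ → ℝ) : ℝ :=
  ∑ x ∈ range n, ∑ l ∈ Ico (min (r x) (pr R r x)) (max (r x) (pr R r x)), f x l +
    ∑ l ∈ Ico (min k (pr R r n)) (max k (pr R r n)), f n l

private theorem upr_card (a b : ℕ) :
    (((Ico (min a b) (max a b)).card : ℕ) : ℝ) = ((|(a : ℤ) - b| : ℤ) : ℝ) := by
  rw [Nat.card_Ico]
  rcases le_total a b with h | h
  · rw [min_eq_left h, max_eq_right h, abs_of_nonpos (by omega), Nat.cast_sub h]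
    push_cast
    ring
  · rw [min_eq_right h, max_eq_left h, abs_of_nonneg (by omega), Nat.cast_sub h]
    push_cast
    ring

private theorem upr_pr_le (R n M : ℕ) (r : ℕ → ℕ) (hR : R ≤ M) (hr : ∀ x < n, r x ≤ M) (x : ℕ)
    (hx : x ≤ n) : pr R r x ≤ M := by
  cases x with
  | zero => exact hR
  | succ x => exact hr x (by omega)

private theorem upr_vs_eq (R n k M : ℕ) (r : ℕ → ℕ) (hR : R ≤ M) (hk : k ≤ M) (hr : ∀ x < n, r x ≤ M)
    (f : ℕ → ℕ → ℝ) (C : ℝ) (hf : ∀ x ≤ n, ∀ l < M, f x l = C) :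
    upr_vs R n k r f = C * (upr_vn R n k r : ℝ) := by
  have h1 : ∀ a b : ℕ, ∀ x ≤ n, a ≤ M → b ≤ M →
      ∑ l ∈ Ico (min a b) (max a b), f x l = C * ((|(a : ℤ) - b| : ℤ) : ℝ) := by
    intro a b x hx ha hb
    have h2 : ∀ l ∈ Ico (min a b) (max a b), f x l = C := by
      intro l hl
      have := (mem_Ico.1 hl).2
      exact hf x hx l (lt_of_lt_of_le this (max_le ha hb))
    rw [sum_congr rfl h2, sum_const, nsmul_eq_mul, upr_card, mul_comm]
  unfold upr_vs upr_vn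
  have h3 : ∀ x ∈ range n, ∑ l ∈ Ico (min (r x) (pr R r x)) (max (r x) (pr R r x)), f x l =
      C * ((|(r x : ℤ) - pr R r x| : ℤ) : ℝ) := by
    intro x hx
    have hx' := mem_range.1 hx
    exact h1 (r x) (pr R r x) x hx'.le (hr x hx') (upr_pr_le R n M r hR hr x hx'.le)
  rw [sum_congr rfl h3, h1 k (pr R r n) n le_rfl hk (upr_pr_le R n M r hR hr n le_rfl), ← mul_sum,
    ← mul_add]
  push_cast
  rfl

private theorem upr_Ex_vs {ι : Type} [Fintype ι] [DecidableEq ι] (q : ℝ) (R n k : ℕ) (r : ℕ → ℕ)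
    (f : (ι → Bool) → ℕ → ℕ → ℝ) :
    Ex q (fun v => upr_vs R n k r (f v)) = upr_vs R n k r (fun x l => Ex q (fun v => f v x l)) := by
  unfold upr_vs
  rw [Ex_add, Ex_sum, Ex_sum]
  congr 1
  refine sum_congr rfl fun x _ => ?_
  rw [Ex_sum]

private theorem upr_Ex_one {n M : ℕ} (q : ℝ) (x l : ℕ) (hx : x < n) (hl : l < M) :
    Ex q (fun v : Fin n × Fin M → Bool => 1 + 2 * (bt (ex2 v x l) : ℝ)) = 1 + 2 * q := by
  have h : (fun v : Fin n × Fin M → Bool => 1 + 2 * (bt (ex2 v x l) : ℝ)) =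
      fun v => (fun b : Bool => 1 + 2 * (bt b : ℝ)) (v (⟨x, hx⟩, ⟨l, hl⟩)) := by
    funext v
    simp [ex2, hx, hl]
  rw [h]
  refine (Ex_single (ι := Fin n × Fin M) q (⟨x, hx⟩, ⟨l, hl⟩)
    (fun b : Bool => 1 + 2 * (bt b : ℝ))).trans ?_
  simp only [bt]
  norm_num
  ring

private theorem upr_T (R n k M : ℕ) (r : ℕ → ℕ) (hR : R ≤ M) (hk : k ≤ M) (hr : ∀ x < n, r x < M)
    (τ : Sym2 (Fin 2 → ℤ) → ℝ) (hτ : ∀ e, τ e = 1 ∨ τ e = 3) (c v : ℕ → ℕ → Bool)
    (hc : ∀ x < n, ∀ k < M, (c x k = true ↔ τ (he x ((k : ℤ) - R)) = 3))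
    (hv : ∀ x ≤ n, ∀ k < M, (v x k = true ↔ τ (ve x ((k : ℤ) - R)) = 3)) :
    T τ 0 ![(n : ℤ), (k : ℤ) - R] ≤ n + 2 * ∑ x ∈ range n, (bt (c x (r x)) : ℝ) +
      upr_vs R n k r (fun x l => 1 + 2 * (bt (v x l) : ℝ)) := by
  have key : ∀ (e : Sym2 (Fin 2 → ℤ)) (b : Bool), (b = true ↔ τ e = 3) →
      τ e = 1 + 2 * (bt b : ℝ) := by
    intro e b h
    rcases hτ e with h1 | h1
    · have h2 : b = false := by
        cases b
        · rfl
        · exfalso
          have := h.1 rfl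
          rw [h1] at this
          norm_num at this
      rw [h2, h1]
      simp [bt]
    · rw [h.2 h1, h1]
      simp only [bt]
      norm_num
  refine (T_le_path τ (fun e => by rcases hτ e with h | h <;> rw [h] <;> norm_num) R n k r).trans
    (le_of_eq ?_)
  have hr' : ∀ x < n, r x ≤ M := fun x hx => (hr x hx).le
  have e0 : ∀ a b : ℕ, ∀ x ≤ n, a ≤ M → b ≤ M →
      ∑ l ∈ Ico (min a b) (max a b), τ (ve x ((l : ℤ) - R)) =
        ∑ l ∈ Ico (min a b) (max a b), (1 + 2 * (bt (v x l) : ℝ)) := by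
    intro a b x hx ha hb
    refine sum_congr rfl fun l hl => ?_
    have := (mem_Ico.1 hl).2
    exact key _ _ (hv x hx l (lt_of_lt_of_le this (max_le ha hb)))
  have e1 : ∑ x ∈ range n, τ (he x ((r x : ℤ) - R)) =
      n + 2 * ∑ x ∈ range n, (bt (c x (r x)) : ℝ) := by
    rw [sum_congr rfl (fun x hx => key _ (c x (r x))
      (hc x (mem_range.1 hx) (r x) (hr x (mem_range.1 hx)))), sum_add_distrib, mul_sum]
    simp
  unfold upr_vs
  rw [sum_add_distrib, e1, e0 k (pr R r n) n le_rfl hk (upr_pr_le R n M r hR hr' n le_rfl),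
    sum_congr rfl (fun x hx => e0 (r x) (pr R r x) x (mem_range.1 hx).le
      (hr' x (mem_range.1 hx)) (upr_pr_le R n M r hR hr' x (mem_range.1 hx).le))]
  ring

private noncomputable def upr_F (R n k M : ℕ) (c : Fin n × Fin M → Bool)
    (v : Fin (n + 1) × Fin M → Bool) : ℝ :=
  (n + 2 * ∑ x ∈ range n, (bt (ex2 c x (upr_r R n k (bm (ex2 c)) x)) : ℝ)) +
    upr_vs R n k (upr_r R n k (bm (ex2 c))) (fun x l => 1 + 2 * (bt (ex2 v x l) : ℝ))

private theorem upr_facts (R n k M : ℕ) (hM : R + 2 * n < M) (hk : |(k : ℤ) - R| ≤ n)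
    (b : ℕ → ℕ → Bool) :
    cost R (upr_r R n k (bm b)) (bm b) n k ≤ wdg R b n k ∧
      ∀ x < n, upr_r R n k (bm b) x < M := by
  have h1 := upr_r_cost R n k (bm b) (fun x k => bm_adj b x k)
  have h2 : wdg R (bm b) n k ≤ wdg R b n k :=
    wdg_mono R (bm b) b (fun x k => bm_le b x k) n k
  have h3 := upr_wdg_le R n k b
  refine ⟨h1.trans h2, fun x hx => ?_⟩
  have h4 := cost_rows R n k (upr_r R n k (bm b)) (bm b) hk ((h1.trans h2).trans h3) x hx
  omega

open Classical in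
private theorem upr_et {q : ℝ} (hq0 : 0 ≤ q) (hq1 : q ≤ 1) [IsProbabilityMeasure (nuq q)]
    (R n k M : ℕ) (hM : R + 2 * n < M) (hk : |(k : ℤ) - R| ≤ n) :
    et 2 (nuq q) ![(n : ℤ), (k : ℤ) - R] ≤
      Ex q (fun c : Fin n × Fin M → Bool =>
        Ex q (fun v : Fin (n + 1) × Fin M → Bool => upr_F R n k M c v)) := by
  have hkM : k ≤ M := by
    have := (abs_le.1 hk).2
    omega
  set e : (Fin n × Fin M) ⊕ (Fin (n + 1) × Fin M) → Sym2 (Fin 2 → ℤ) :=
    Sum.elim (fun p => he ((p.1 : ℕ) : ℤ) (((p.2 : ℕ) : ℤ) - (R : ℤ)))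
      (fun p => ve ((p.1 : ℕ) : ℤ) (((p.2 : ℕ) : ℤ) - (R : ℤ))) with he'
  have hinj : Function.Injective e := by
    rintro (⟨x, k⟩ | ⟨x, k⟩) (⟨x', k'⟩ | ⟨x', k'⟩) h
    · simp only [he', Sum.elim_inl] at h
      obtain ⟨h1, h2⟩ := he_inj h
      have h3 : (x : ℕ) = x' := by exact_mod_cast h1
      have h4 : (k : ℕ) = k' := by omega
      rw [Fin.ext h3, Fin.ext h4]
    · simp only [he', Sum.elim_inl, Sum.elim_inr] at h
      exact absurd h (he_ne_ve _ _ _ _)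
    · simp only [he', Sum.elim_inl, Sum.elim_inr] at h
      exact absurd h.symm (he_ne_ve _ _ _ _)
    · simp only [he', Sum.elim_inr] at h
      obtain ⟨h1, h2⟩ := ve_inj h
      have h3 : (x : ℕ) = x' := by exact_mod_cast h1
      have h4 : (k : ℕ) = k' := by omega
      rw [Fin.ext h3, Fin.ext h4]
  set g : ((Fin n × Fin M) ⊕ (Fin (n + 1) × Fin M) → Bool) → ℝ :=
    fun w => upr_F R n k M (fun i => w (Sum.inl i)) (fun j => w (Sum.inr j)) with hg
  have h1 : et 2 (nuq q) ![(n : ℤ), (k : ℤ) - R] ≤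
      ∫ τ, g (fun i => decide (τ (e i) = 3)) ∂law 2 (nuq q) := by
    refine integral_mono_of_nonneg ?_ (brg_int e g) ?_
    · filter_upwards [ae_two hq0 hq1] with τ hτ
      exact T_nonneg (fun e => by rcases hτ e with h | h <;> rw [h] <;> norm_num) _ _
    · filter_upwards [ae_two hq0 hq1] with τ hτ
      refine upr_T R n k M _ (by omega) hkM ?_ τ hτ _ _ ?_ ?_
      · intro x hx
        exact (upr_facts R n k M hM hk _).2 x hx
      · intro x hx k hk
        simp [ex2, hx, hk, he']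
      · intro x hx k hk
        have hx' : x < n + 1 := by omega
        simp [ex2, hx', hk, he']
  rw [brg hq0 hq1 e hinj g, Ex_union] at h1
  exact h1

private theorem upr_inner (q : ℝ) (R n k M : ℕ) (hM : R + 2 * n < M) (hk : |(k : ℤ) - R| ≤ n)
    (c : Fin n × Fin M → Bool) :
    Ex q (fun v : Fin (n + 1) × Fin M → Bool => upr_F R n k M c v) =
      (n + 2 * ∑ x ∈ range n, (bt (ex2 c x (upr_r R n k (bm (ex2 c)) x)) : ℝ)) +
        (1 + 2 * q) * (upr_vn R n k (upr_r R n k (bm (ex2 c))) : ℝ) := by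
  have hkM : k ≤ M := by
    have := (abs_le.1 hk).2
    omega
  unfold upr_F
  rw [Ex_add, Ex_const, upr_Ex_vs]
  congr 1
  refine upr_vs_eq R n k M _ (by omega) hkM
    (fun x hx => ((upr_facts R n k M hM hk _).2 x hx).le) _ _ ?_
  intro x hx l hl
  exact upr_Ex_one q x l (by omega) hl

private theorem upr_pt {q : ℝ} (hq : 0 ≤ q) (R n k M : ℕ) (hM : R + 2 * n < M)
    (hk : |(k : ℤ) - R| ≤ n) (c : Fin n × Fin M → Bool) :
    (n + 2 * ∑ x ∈ range n, (bt (ex2 c x (upr_r R n k (bm (ex2 c)) x)) : ℝ)) +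
        (1 + 2 * q) * (upr_vn R n k (upr_r R n k (bm (ex2 c))) : ℝ) ≤
      (n + (1 + 2 * q) * (wdg R (ex2 c) n k : ℝ)) +
        2 * ∑ x ∈ range n, ∑ l ∈ range M,
          (if upr_r R n k (bm (ex2 c)) x = l then (1 : ℝ) else 0) *
            ((bt (ex2 c x l) : ℝ) - bt (bm (ex2 c) x l)) := by
  obtain ⟨h1, h2⟩ := upr_facts R n k M hM hk (ex2 c)
  set r := upr_r R n k (bm (ex2 c)) with hr
  rw [upr_cost_eq] at h1
  have h3 : ((upr_vn R n k r : ℤ) : ℝ) + 2 * ∑ x ∈ range n, (bt (bm (ex2 c) x (r x)) : ℝ) ≤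
      (wdg R (ex2 c) n k : ℝ) := by exact_mod_cast h1
  have h4 : ∑ x ∈ range n, ∑ l ∈ range M, (if r x = l then (1 : ℝ) else 0) *
      ((bt (ex2 c x l) : ℝ) - bt (bm (ex2 c) x l)) =
      ∑ x ∈ range n, (bt (ex2 c x (r x)) : ℝ) - ∑ x ∈ range n, (bt (bm (ex2 c) x (r x)) : ℝ) := by
    rw [← sum_sub_distrib]
    refine sum_congr rfl fun x hx => ?_
    rw [sum_eq_single (r x)]
    · simp
    · intro l _ hl
      rw [if_neg (fun h => hl h.symm), zero_mul]
    · intro h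
      exact absurd (mem_range.2 (h2 x (mem_range.1 hx))) h
  rw [h4]
  have h5 : 0 ≤ ∑ x ∈ range n, (bt (bm (ex2 c) x (r x)) : ℝ) :=
    sum_nonneg fun x _ => by exact_mod_cast bt_nonneg _
  have h6 := mul_le_mul_of_nonneg_left h3 (by linarith : (0 : ℝ) ≤ 1 + 2 * q)
  have h7 := mul_nonneg hq h5
  nlinarith

private theorem upr_gen {q : ℝ} (hq0 : 0 < q) (hq1 : q ≤ 1 / 4) [IsProbabilityMeasure (nuq q)]
    (R n k M : ℕ) (hM : R + 2 * n < M) (hk : |(k : ℤ) - R| ≤ n) :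
    et 2 (nuq q) ![(n : ℤ), (k : ℤ) - R] ≤ n + (1 + 2 * q) *
      Ex q (fun b : Fin n × Fin M → Bool => (wdg R (ex2 b) n k : ℝ)) +
      16 * q ^ 2 * n := by
  have hq0' : 0 ≤ q := hq0.le
  have hq1' : q ≤ 1 := by linarith
  have h1 := upr_et hq0' hq1' R n k M hM hk
  have h2 := h1.trans (Ex_le hq0' hq1'
    (fun c => (upr_inner q R n k M hM hk c).le.trans (upr_pt hq0' R n k M hM hk c)))
  refine h2.trans ?_
  rw [Ex_add, Ex_add, Ex_const, Ex_mul, Ex_mul, Ex_sum]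
  have h3 : ∀ x ∈ range n, Ex q (fun c : Fin n × Fin M → Bool => ∑ l ∈ range M,
      (if upr_r R n k (bm (ex2 c)) x = l then (1 : ℝ) else 0) *
            ((bt (ex2 c x l) : ℝ) - bt (bm (ex2 c) x l))) ≤ 8 * q ^ 2 := by
    intro x hx
    rw [Ex_sum]
    have h4 : ∀ l ∈ range M, Ex q (fun c : Fin n × Fin M → Bool =>
      (if upr_r R n k (bm (ex2 c)) x = l then (1 : ℝ) else 0) *
            ((bt (ex2 c x l) : ℝ) - bt (bm (ex2 c) x l))) ≤ 8 * q ^ 2 *
        Ex q (fun c : Fin n × Fin M → Bool =>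
          (if upr_r R n k (bm (ex2 c)) x = l then (1 : ℝ) else 0)) := by
      intro l hl
      exact cls hq0 hq1 n M x l (mem_range.1 hx) (mem_range.1 hl)
        (fun b => if upr_r R n k b x = l then (1 : ℝ) else 0)
        (fun b => by split_ifs <;> norm_num)
    refine (sum_le_sum h4).trans ?_
    rw [← mul_sum, ← Ex_sum]
    have h5 : Ex q (fun c : Fin n × Fin M → Bool => ∑ l ∈ range M,
        (if upr_r R n k (bm (ex2 c)) x = l then (1 : ℝ) else 0)) ≤ 1 := by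
      calc _ ≤ Ex q (fun _ : Fin n × Fin M → Bool => (1 : ℝ)) := by
            refine Ex_le hq0' hq1' fun c => ?_
            rw [sum_ite_eq]
            split_ifs <;> norm_num
        _ = 1 := Ex_const q 1
    have h6 : 0 ≤ 8 * q ^ 2 := by positivity
    nlinarith
  have h7 := sum_le_sum h3
  rw [sum_const, card_range, nsmul_eq_mul] at h7
  linarith

theorem upr {q : ℝ} (hq0 : 0 < q) (hq1 : q ≤ 1 / 4) [IsProbabilityMeasure (nuq q)] (L n k : ℕ) (hn : 1 ≤ n)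
    (hk : |(k : ℤ) - (L * n : ℕ)| ≤ n) :
    et 2 (nuq q) ![(n : ℤ), (k : ℤ) - (L * n : ℕ)] ≤ n + (1 + 2 * q) *
      Ex q (fun b : Fin n × Fin ((L + 3) * n) → Bool => (wdg (L * n) (ex2 b) n k : ℝ)) +
      16 * q ^ 2 * n := by
  have hM : L * n + 2 * n < (L + 3) * n := by
    have : (L + 3) * n = L * n + 3 * n := by ring
    omega
  exact upr_gen hq0 hq1 (L * n) n k ((L + 3) * n) hM hk

end Pool.Agent.Lib.FPC
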