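import Pool.Agent.Lib.FPC.Pth
import Pool.Agent.Lib.FPC.Pth3
import Pool.Agent.Lib.FPC.Cls
import Pool.Agent.Lib.FPC.Wdg
import Pool.Agent.Lib.FPC.Mono
import Pool.Agent.Lib.FPC.Brg
import Pool.Agent.Lib.FPC.Brg3

/-!
# V3: the upper bound for the mean passage time, general laws

Row `Upr3`.  As `Upr` (V2, copy what you can) with `c (x, l) = decide (3 ≤ τ (he x (l - R)))`, `r = r(bm (ex2 c))`, and `T_le_path3` with
`d x = bm (ex2 c) x (r x)`.  If `d x = true` then `ex2 c x (r x + 1) = false` (definition of `bm`), so (almost surely, `Law3.one`)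
`τ (he x (r x + 1 - R)) = 1`.  If `d x = false`: `τ (he ..) = 1` or the obstacle at `(x, r x)` is a removed one.  Vertical edges are
independent of `c` and have mean `1 + A` (`brg3_off`, sum over the value of `c`, or of `(x, r x, pr R r x)`).  So
`E T ≤ n + (1 + A) E[#vert + 2 ∑ bt (bm .. x (r x))] + ∑_x E[(τ (he x (r x - R)) - 1) 1[removed]]`, and by `brg3_on` and `cls` the last sum is
`≤ n (A / q) 8 q² = 8 q A n`.
-/

set_option autoImplicit false

open MeasureTheory Filter Topology Finset Pool.Agent.Lib.MP_a83deb_pr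

namespace Pool.Agent.Lib.FPC

open Classical in
/-- the chosen path -/
private noncomputable def upr3_r (R n k : ℕ) (b : ℕ → ℕ → Bool) : ℕ → ℕ :=
  if h : ∀ x k, b x k = true → b x (k + 1) = false then
    Classical.choose (wedge_path R b h n k) else fun _ => R

private theorem upr3_r_cost (R n k : ℕ) (b : ℕ → ℕ → Bool)
    (h : ∀ x k, b x k = true → b x (k + 1) = false) :
    cost R (upr3_r R n k b) b n k ≤ wdg R b n k := by
  unfold upr3_r
  rw [dif_pos h]
  exact Classical.choose_spec (wedge_path R b h n k)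

private theorem upr3_wdg_le (R n k : ℕ) (b : ℕ → ℕ → Bool) :
    wdg R b n k ≤ |(k : ℤ) - R| + 2 * n := by
  have h1 := H_le_x (-∑ i ∈ range R, sg (decide (R ≤ i))) (fun _ => true) b
    (fun k => decide (R ≤ k)) n k
  have h2 := hgt_zero R (fun _ => true) b (fun k => decide (R ≤ k))
  have h3 := H_lip (-∑ i ∈ range R, sg (decide (R ≤ i))) (fun _ => true) b
    (fun k => decide (R ≤ k)) 0 R k
  unfold hgt at h2
  rw [h2] at h3
  have h4 := (le_abs_self _).trans h3
  unfold wdg hgt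
  linarith

private theorem upr3_card (a b : ℕ) :
    (((Ico (min a b) (max a b)).card : ℕ) : ℝ) = ((|(a : ℤ) - b| : ℤ) : ℝ) := by
  rw [Nat.card_Ico]
  rcases le_total a b with h | h
  · rw [min_eq_left h, max_eq_right h, abs_of_nonpos (by omega), Nat.cast_sub h]
    push_cast
    ring
  · rw [min_eq_right h, max_eq_left h, abs_of_nonneg (by omega), Nat.cast_sub h]
    push_cast
    ring

private theorem upr3_pr_le (R n M : ℕ) (r : ℕ → ℕ) (hR : R ≤ M) (hr : ∀ x < n, r x < M) (x : ℕ)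
    (hx : x ≤ n) : pr R r x ≤ M := by
  cases x with
  | zero => exact hR
  | succ x => exact (hr x (by omega)).le

private theorem upr3_facts (R n k M : ℕ) (hM : R + 2 * n < M) (hM1 : n = 1 ∨ R + 2 * n + 1 < M)
    (hk : |(k : ℤ) - R| ≤ n) (b : ℕ → ℕ → Bool) :
    cost R (upr3_r R n k (bm b)) (bm b) n k ≤ wdg R b n k ∧
      (∀ x < n, upr3_r R n k (bm b) x < M) ∧
      ∀ x < n, bm b x (upr3_r R n k (bm b) x) = true → upr3_r R n k (bm b) x + 1 < M := by
  have h1 := upr3_r_cost R n k (bm b) (fun x k => bm_adj b x k)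
  have h2 : wdg R (bm b) n k ≤ wdg R b n k :=
    wdg_mono R (bm b) b (fun x k => bm_le b x k) n k
  have h3 := upr3_wdg_le R n k b
  have h5 := (h1.trans h2).trans h3
  set r := upr3_r R n k (bm b) with hr
  refine ⟨h1.trans h2, fun x hx => ?_, fun x hx hb => ?_⟩
  · have h4 := cost_rows R n k r (bm b) hk h5 x hx
    omega
  · rcases hM1 with h | h
    · subst h
      have hx0 : x = 0 := by omega
      subst hx0
      have h6 : |(r 0 : ℤ) - R| + 2 * bt (bm b 0 (r 0)) + |(k : ℤ) - r 0| ≤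
          |(k : ℤ) - R| + 2 * (1 : ℕ) := by
        have h7 : cost R r (bm b) 1 k =
            |(r 0 : ℤ) - R| + 2 * bt (bm b 0 (r 0)) + |(k : ℤ) - r 0| := by
          simp [cost, pr]
        rw [← h7]
        exact h5
      rw [hb, bt_true] at h6
      have h8 := le_abs_self ((r 0 : ℤ) - R)
      have h9 := neg_abs_le ((k : ℤ) - r 0)
      have h10 := (abs_le.1 hk).2
      push_cast at h6 hk h10
      omega
    · have h4 := cost_rows R n k r (bm b) hk h5 x hx
      omega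

/-- the total of `f` over the vertical edges used -/
private def upr3_W (R n k : ℕ) (r : ℕ → ℕ) (d : ℕ → Bool) (f : ℕ → ℕ → ℝ) : ℝ :=
  ∑ x ∈ range n, ((bt (d x) : ℝ) * (f x (r x) + f (x + 1) (r x)) +
    ∑ l ∈ Ico (min (r x) (pr R r x)) (max (r x) (pr R r x)), f x l) +
    ∑ l ∈ Ico (min k (pr R r n)) (max k (pr R r n)), f n l

private theorem upr3_W_zero (R n k : ℕ) (r : ℕ → ℕ) (d : ℕ → Bool) :
    upr3_W R n k r d (fun _ _ => 0) = 0 := by
  simp [upr3_W]

private theorem upr3_W_lin (R n k : ℕ) (r : ℕ → ℕ) (d : ℕ → Bool) (a : ℝ) (g h : ℕ → ℕ → ℝ) :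
    upr3_W R n k r d (fun y m => a * g y m + h y m) =
      a * upr3_W R n k r d g + upr3_W R n k r d h := by
  have h1 : ∀ x, ((bt (d x) : ℝ) * ((a * g x (r x) + h x (r x)) +
      (a * g (x + 1) (r x) + h (x + 1) (r x))) +
      ∑ l ∈ Ico (min (r x) (pr R r x)) (max (r x) (pr R r x)), (a * g x l + h x l)) =
      a * ((bt (d x) : ℝ) * (g x (r x) + g (x + 1) (r x)) +
        ∑ l ∈ Ico (min (r x) (pr R r x)) (max (r x) (pr R r x)), g x l) +
      ((bt (d x) : ℝ) * (h x (r x) + h (x + 1) (r x)) +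
        ∑ l ∈ Ico (min (r x) (pr R r x)) (max (r x) (pr R r x)), h x l) := by
    intro x
    rw [sum_add_distrib, ← mul_sum]
    ring
  have h2 : ∑ l ∈ Ico (min k (pr R r n)) (max k (pr R r n)), (a * g n l + h n l) =
      a * ∑ l ∈ Ico (min k (pr R r n)) (max k (pr R r n)), g n l +
        ∑ l ∈ Ico (min k (pr R r n)) (max k (pr R r n)), h n l := by
    rw [sum_add_distrib, ← mul_sum]
  unfold upr3_W
  rw [sum_congr rfl (fun x _ => h1 x), h2, sum_add_distrib, ← mul_sum]
  ring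

private theorem upr3_W_sum (R n k : ℕ) (r : ℕ → ℕ) (d : ℕ → Bool) (S : Finset (ℕ × ℕ))
    (a : ℕ × ℕ → ℝ) (g : ℕ × ℕ → ℕ → ℕ → ℝ) :
    upr3_W R n k r d (fun y m => ∑ p ∈ S, a p * g p y m) =
      ∑ p ∈ S, a p * upr3_W R n k r d (g p) := by
  classical
  induction S using Finset.induction_on with
  | empty => simp [upr3_W_zero]
  | insert p S hp ih =>
    have h1 : (fun y m => ∑ p ∈ insert p S, a p * g p y m) =
        fun y m => a p * g p y m + (fun y m => ∑ p ∈ S, a p * g p y m) y m := by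
      funext y m
      rw [sum_insert hp]
    rw [h1, upr3_W_lin, ih, sum_insert hp]

private theorem upr3_W_congr (R n k M : ℕ) (r : ℕ → ℕ) (d : ℕ → Bool) (hR : R ≤ M) (hk : k ≤ M)
    (hr : ∀ x < n, r x < M) (f g : ℕ → ℕ → ℝ) (h : ∀ y ≤ n, ∀ m < M, f y m = g y m) :
    upr3_W R n k r d f = upr3_W R n k r d g := by
  have h0 : ∀ a b : ℕ, ∀ x ≤ n, a ≤ M → b ≤ M →
      ∑ l ∈ Ico (min a b) (max a b), f x l = ∑ l ∈ Ico (min a b) (max a b), g x l := by
    intro a b x hx ha hb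
    refine sum_congr rfl fun l hl => ?_
    have := (mem_Ico.1 hl).2
    exact h x hx l (lt_of_lt_of_le this (max_le ha hb))
  unfold upr3_W
  rw [h0 k (pr R r n) n le_rfl hk (upr3_pr_le R n M r hR hr n le_rfl)]
  congr 1
  refine sum_congr rfl fun x hx => ?_
  have hx' := mem_range.1 hx
  rw [h x hx'.le (r x) (hr x hx'), h (x + 1) hx' (r x) (hr x hx'),
    h0 (r x) (pr R r x) x hx'.le (hr x hx').le (upr3_pr_le R n M r hR hr x hx'.le)]

private def upr3_D (p : ℕ × ℕ) : ℕ → ℕ → ℝ := fun y m => if (y, m) = p then 1 else 0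

private theorem upr3_W_rep (R n k M : ℕ) (r : ℕ → ℕ) (d : ℕ → Bool) (hR : R ≤ M) (hk : k ≤ M)
    (hr : ∀ x < n, r x < M) (f : ℕ → ℕ → ℝ) :
    upr3_W R n k r d f =
      ∑ p ∈ range (n + 1) ×ˢ range M, f p.1 p.2 * upr3_W R n k r d (upr3_D p) := by
  rw [← upr3_W_sum R n k r d (range (n + 1) ×ˢ range M) (fun p => f p.1 p.2) upr3_D]
  refine upr3_W_congr R n k M r d hR hk hr _ _ fun y hy m hm => ?_
  rw [sum_eq_single (y, m)]
  · simp [upr3_D]
  · intro p _ hp
    simp only [upr3_D]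
    rw [if_neg (fun h => hp h.symm), mul_zero]
  · intro h
    exact absurd (mem_product.2 ⟨mem_range.2 (by omega), mem_range.2 hm⟩) h

private theorem upr3_W_one (R n k : ℕ) (r : ℕ → ℕ) (b : ℕ → ℕ → Bool) :
    upr3_W R n k r (fun x => b x (r x)) (fun _ _ => 1) = (cost R r b n k : ℝ) := by
  have h1 : ∀ a b : ℕ, ∑ _l ∈ Ico (min a b) (max a b), (1 : ℝ) = ((|(a : ℤ) - b| : ℤ) : ℝ) := by
    intro a b
    rw [sum_const, nsmul_eq_mul, upr3_card, mul_one]
  unfold upr3_W cost
  simp only [h1]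
  push_cast
  congr 1
  refine sum_congr rfl fun x _ => ?_
  ring

private theorem upr3_bm_succ (b : ℕ → ℕ → Bool) (x j : ℕ) (h : bm b x j = true) :
    b x (j + 1) = false := by
  cases j with
  | zero =>
    simp only [bm, Bool.and_eq_true, Bool.not_eq_true'] at h
    exact h.2
  | succ j =>
    simp only [bm, Bool.and_eq_true, Bool.not_eq_true'] at h
    exact h.2.1

/-- the pathwise bound -/
private theorem upr3_T (R n k M : ℕ) (r : ℕ → ℕ) (τ : Sym2 (Fin 2 → ℤ) → ℝ)
    (hτ : ∀ e, τ e = 1 ∨ 3 ≤ τ e) (c : ℕ → ℕ → Bool)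
    (hc : ∀ x < n, ∀ l < M, (c x l = true ↔ 3 ≤ τ (he x ((l : ℤ) - R))))
    (hr : ∀ x < n, r x < M) (hr1 : ∀ x < n, bm c x (r x) = true → r x + 1 < M) :
    T τ 0 ![(n : ℤ), (k : ℤ) - R] ≤ n +
      upr3_W R n k r (fun x => bm c x (r x)) (fun x l => τ (ve x ((l : ℤ) - R))) +
      ∑ x ∈ range n, (τ (he x ((r x : ℤ) - R)) - 1) * ((bt (c x (r x)) : ℝ) - bt (bm c x (r x))) := by
  have h0 : ∀ e, 0 ≤ τ e := fun e => by
    rcases hτ e with h | h
    · rw [h]
      norm_num
    · linarith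
  refine (T_le_path3 τ h0 R n k r (fun x => bm c x (r x))).trans (le_of_eq ?_)
  have h1 : ∀ x ∈ range n, ((if bm c x (r x) then τ (ve x ((r x : ℤ) - R)) +
      τ (he x ((r x : ℤ) + 1 - R)) + τ (ve ((x : ℤ) + 1) ((r x : ℤ) - R)) else
      τ (he x ((r x : ℤ) - R))) +
        ∑ l ∈ Ico (min (r x) (pr R r x)) (max (r x) (pr R r x)), τ (ve x ((l : ℤ) - R))) =
      1 + ((bt (bm c x (r x)) : ℝ) * (τ (ve x ((r x : ℤ) - R)) +
        τ (ve ((x + 1 : ℕ) : ℤ) ((r x : ℤ) - R))) +
        ∑ l ∈ Ico (min (r x) (pr R r x)) (max (r x) (pr R r x)), τ (ve x ((l : ℤ) - R))) +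
      (τ (he x ((r x : ℤ) - R)) - 1) * ((bt (c x (r x)) : ℝ) - bt (bm c x (r x))) := by
    intro x hx
    have hx' := mem_range.1 hx
    cases hb : bm c x (r x) with
    | false =>
      simp only [bt_false]
      cases hcx : c x (r x) with
      | false =>
        have h2 : τ (he x ((r x : ℤ) - R)) = 1 := by
          rcases hτ (he x ((r x : ℤ) - R)) with h | h
          · exact h
          · have := (hc x hx' (r x) (hr x hx')).2 h
            rw [hcx] at this
            exact absurd this (by simp)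
        rw [h2]
        simp [bt]
      | true =>
        simp [bt]
        ring
    | true =>
      have h3 := bm_le c x (r x) hb
      have h4 := upr3_bm_succ c x (r x) hb
      have h5 : τ (he x ((r x : ℤ) + 1 - R)) = 1 := by
        rcases hτ (he x ((r x : ℤ) + 1 - R)) with h | h
        · exact h
        · have := (hc x hx' (r x + 1) (hr1 x hx' hb)).2 (by push_cast; exact h)
          rw [h4] at this
          exact absurd this (by simp)
      rw [h3, h5]
      simp [bt]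
      ring
  rw [sum_congr rfl h1]
  unfold upr3_W
  rw [sum_add_distrib, sum_add_distrib]
  simp only [sum_const, card_range, nsmul_eq_mul, mul_one]
  ring

private noncomputable def upr3_N (R n k M : ℕ) (p : ℕ × ℕ) (c : Fin n × Fin M → Bool) : ℝ :=
  upr3_W R n k (upr3_r R n k (bm (ex2 c)))
    (fun x => bm (ex2 c) x (upr3_r R n k (bm (ex2 c)) x)) (upr3_D p)

private noncomputable def upr3_g (R n k M : ℕ) (x l : ℕ) (c : Fin n × Fin M → Bool) : ℝ :=
  (if upr3_r R n k (bm (ex2 c)) x = l then (1 : ℝ) else 0) *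
    ((bt (ex2 c x l) : ℝ) - bt (bm (ex2 c) x l))

private theorem upr3_sum_g (R n k M : ℕ) (c : Fin n × Fin M → Bool)
    (hr : ∀ x < n, upr3_r R n k (bm (ex2 c)) x < M) (f : ℕ → ℕ → ℝ) :
    ∑ p : Fin n × Fin M, f p.1 p.2 * upr3_g R n k M p.1 p.2 c =
      ∑ x ∈ range n, f x (upr3_r R n k (bm (ex2 c)) x) *
        ((bt (ex2 c x (upr3_r R n k (bm (ex2 c)) x)) : ℝ) -
          bt (bm (ex2 c) x (upr3_r R n k (bm (ex2 c)) x))) := by
  rw [Fintype.sum_prod_type]
  have h1 : ∀ x : Fin n, ∑ l : Fin M, f x l * upr3_g R n k M x l c =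
      f x (upr3_r R n k (bm (ex2 c)) x) *
        ((bt (ex2 c x (upr3_r R n k (bm (ex2 c)) x)) : ℝ) -
          bt (bm (ex2 c) x (upr3_r R n k (bm (ex2 c)) x))) := by
    intro x
    rw [Fin.sum_univ_eq_sum_range (fun l => f x l * upr3_g R n k M x l c) M,
      sum_eq_single (upr3_r R n k (bm (ex2 c)) x)]
    · simp [upr3_g]
    · intro l _ hl
      unfold upr3_g
      rw [if_neg (fun h => hl h.symm)]
      ring
    · intro h
      exact absurd (mem_range.2 (hr x x.2)) h
  rw [sum_congr rfl (fun x _ => h1 x)]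
  exact Fin.sum_univ_eq_sum_range (fun x => f x (upr3_r R n k (bm (ex2 c)) x) *
        ((bt (ex2 c x (upr3_r R n k (bm (ex2 c)) x)) : ℝ) -
          bt (bm (ex2 c) x (upr3_r R n k (bm (ex2 c)) x)))) n

open Classical in
private theorem upr3_et {ν : Measure ℝ} [IsProbabilityMeasure ν] {q A : ℝ} (h : Law3 ν q A)
    (hq0 : 0 < q) (R n k M : ℕ) (hM : R + 2 * n < M) (hM1 : n = 1 ∨ R + 2 * n + 1 < M)
    (hk : |(k : ℤ) - R| ≤ n) :
    et 2 ν ![(n : ℤ), (k : ℤ) - R] ≤ n +
      (1 + A) * Ex q (fun c : Fin n × Fin M → Bool =>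
        (cost R (upr3_r R n k (bm (ex2 c))) (bm (ex2 c)) n k : ℝ)) +
      A / q * ∑ p : Fin n × Fin M, Ex q (fun c : Fin n × Fin M → Bool =>
        (bt (c p) : ℝ) * upr3_g R n k M p.1 p.2 c) := by
  have hkM : k ≤ M := by
    have := (abs_le.1 hk).2
    omega
  have hRM : R ≤ M := by omega
  set e : Fin n × Fin M → Sym2 (Fin 2 → ℤ) :=
    fun p => he ((p.1 : ℕ) : ℤ) (((p.2 : ℕ) : ℤ) - (R : ℤ)) with he'
  have hinj : Function.Injective e := by
    rintro ⟨x, k⟩ ⟨x', k'⟩ h
    obtain ⟨h1, h2⟩ := he_inj h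
    have h3 : (x : ℕ) = x' := by exact_mod_cast h1
    have h4 : (k : ℕ) = k' := by
      simp only at h2
      omega
    rw [Fin.ext h3, Fin.ext h4]
  have hae : ∀ᵐ τ ∂law 2 ν, ∀ e, τ e = 1 ∨ 3 ≤ τ e := by
    refine ae_all_iff.2 fun e => ?_
    exact (mp_eval e).quasiMeasurePreserving.ae h.one
  set S := range (n + 1) ×ˢ range M with hS
  have h1 : et 2 ν ![(n : ℤ), (k : ℤ) - R] ≤
      ∫ τ, ((n : ℝ) + ∑ p ∈ S, τ (ve p.1 ((p.2 : ℤ) - R)) *
        upr3_N R n k M p (fun i => decide (3 ≤ τ (e i))) +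
        ∑ p : Fin n × Fin M, (τ (e p) - 1) *
          upr3_g R n k M p.1 p.2 (fun i => decide (3 ≤ τ (e i)))) ∂law 2 ν := by
    refine integral_mono_of_nonneg ?_ ?_ ?_
    · filter_upwards [hae] with τ hτ
      refine T_nonneg (fun e => ?_) _ _
      rcases hτ e with h | h
      · rw [h]
        norm_num
      · linarith
    · refine ((integrable_const _).add (integrable_finsetSum _ fun p _ => ?_)).add
        (integrable_finsetSum _ fun p _ => ?_)
      · exact brg3_mul_int h.int e (upr3_N R n k M p) _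
      · have h2 := (brg3_mul_int h.int e (upr3_g R n k M p.1 p.2) (e p)).sub
          (brg3_int (ν := ν) e (upr3_g R n k M p.1 p.2))
        refine h2.congr (Eventually.of_forall fun τ => ?_)
        simp only [Pi.sub_apply]
        ring
    · filter_upwards [hae] with τ hτ
      set c : Fin n × Fin M → Bool := fun i => decide (3 ≤ τ (e i)) with hcdef
      obtain ⟨_, h3, h4⟩ := upr3_facts R n k M hM hM1 hk (ex2 c)
      have h5 := upr3_T R n k M (upr3_r R n k (bm (ex2 c))) τ hτ (ex2 c) (by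
        intro x hx l hl
        simp [ex2, hx, hl, hcdef, he']) h3 h4
      rw [upr3_W_rep R n k M _ _ hRM hkM h3] at h5
      have h6 := upr3_sum_g R n k M c h3 (fun x l => τ (he x ((l : ℤ) - R)) - 1)
      rw [← h6] at h5
      exact h5
  refine h1.trans (le_of_eq ?_)
  have i1 : ∀ p ∈ S, Integrable (fun τ => τ (ve p.1 ((p.2 : ℤ) - R)) *
      upr3_N R n k M p (fun i => decide (3 ≤ τ (e i)))) (law 2 ν) :=
    fun p _ => brg3_mul_int h.int e (upr3_N R n k M p) _
  have i2 : ∀ p ∈ (univ : Finset (Fin n × Fin M)), Integrable (fun τ => (τ (e p) - 1) *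
      upr3_g R n k M p.1 p.2 (fun i => decide (3 ≤ τ (e i)))) (law 2 ν) := by
    intro p _
    have h2 := (brg3_mul_int h.int e (upr3_g R n k M p.1 p.2) (e p)).sub
      (brg3_int (ν := ν) e (upr3_g R n k M p.1 p.2))
    refine h2.congr (Eventually.of_forall fun τ => ?_)
    simp only [Pi.sub_apply]
    ring
  have k1 : Integrable (fun τ => ∑ p ∈ S, τ (ve p.1 ((p.2 : ℤ) - R)) *
      upr3_N R n k M p (fun i => decide (3 ≤ τ (e i)))) (law 2 ν) := integrable_finsetSum _ i1
  have k2 : Integrable (fun τ => ∑ p : Fin n × Fin M, (τ (e p) - 1) *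
      upr3_g R n k M p.1 p.2 (fun i => decide (3 ≤ τ (e i)))) (law 2 ν) :=
    integrable_finsetSum _ i2
  have k3 : Integrable (fun _ => (n : ℝ)) (law 2 ν) := integrable_const _
  have k4 : Integrable (fun τ => (n : ℝ) + ∑ p ∈ S, τ (ve p.1 ((p.2 : ℤ) - R)) *
      upr3_N R n k M p (fun i => decide (3 ≤ τ (e i)))) (law 2 ν) := k3.add k1
  rw [integral_add k4 k2, integral_add k3 k1, integral_finsetSum _ i1,
    integral_finsetSum _ i2]
  have j1 : ∀ p ∈ S, ∫ τ, τ (ve p.1 ((p.2 : ℤ) - R)) *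
      upr3_N R n k M p (fun i => decide (3 ≤ τ (e i))) ∂law 2 ν =
      (1 + A) * Ex q (upr3_N R n k M p) := by
    intro p _
    rw [brg3_off h.int h.prob e hinj (upr3_N R n k M p) _ (fun i => he_ne_ve _ _ _ _), h.mean]
  have j2 : ∀ p ∈ (univ : Finset (Fin n × Fin M)), ∫ τ, (τ (e p) - 1) *
      upr3_g R n k M p.1 p.2 (fun i => decide (3 ≤ τ (e i))) ∂law 2 ν =
      A / q * Ex q (fun c => (bt (c p) : ℝ) * upr3_g R n k M p.1 p.2 c) := by
    intro p _
    have h2 := brg3_on h e hinj (upr3_g R n k M p.1 p.2) p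
    field_simp
    linarith
  rw [sum_congr rfl j1, sum_congr rfl j2, ← mul_sum, ← mul_sum, ← Ex_sum]
  have h7 : (fun c : Fin n × Fin M → Bool => ∑ p ∈ S, upr3_N R n k M p c) =
      fun c => (cost R (upr3_r R n k (bm (ex2 c))) (bm (ex2 c)) n k : ℝ) := by
    funext c
    obtain ⟨_, h3, _⟩ := upr3_facts R n k M hM hM1 hk (ex2 c)
    have h8 := upr3_W_rep R n k M (upr3_r R n k (bm (ex2 c)))
      (fun x => bm (ex2 c) x (upr3_r R n k (bm (ex2 c)) x)) hRM hkM h3 (fun _ _ => 1)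
    rw [upr3_W_one] at h8
    rw [h8]
    refine sum_congr rfl fun p _ => ?_
    rw [one_mul]
    rfl
  rw [h7]
  simp

private theorem upr3_gen {ν : Measure ℝ} [IsProbabilityMeasure ν] {q A : ℝ} (h : Law3 ν q A)
    (hq0 : 0 < q) (hq1 : q ≤ 1 / 4) (R n k M : ℕ) (hM : R + 2 * n < M)
    (hM1 : n = 1 ∨ R + 2 * n + 1 < M) (hk : |(k : ℤ) - R| ≤ n) :
    et 2 ν ![(n : ℤ), (k : ℤ) - R] ≤ n + (1 + A) *
      Ex q (fun b : Fin n × Fin M → Bool => (wdg R (ex2 b) n k : ℝ)) +
      8 * q * A * n := by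
  have hq0' : 0 ≤ q := hq0.le
  have hq1' : q ≤ 1 := by linarith
  have hA : 0 ≤ A := by
    have := h.two_q_le
    linarith
  have h1 := upr3_et h hq0 R n k M hM hM1 hk
  have h2 : Ex q (fun c : Fin n × Fin M → Bool =>
      (cost R (upr3_r R n k (bm (ex2 c))) (bm (ex2 c)) n k : ℝ)) ≤
      Ex q (fun b : Fin n × Fin M → Bool => (wdg R (ex2 b) n k : ℝ)) := by
    refine Ex_le hq0' hq1' fun c => ?_
    exact_mod_cast (upr3_facts R n k M hM hM1 hk (ex2 c)).1
  have h3 : ∀ p : Fin n × Fin M, Ex q (fun c : Fin n × Fin M → Bool =>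
      (bt (c p) : ℝ) * upr3_g R n k M p.1 p.2 c) ≤ 8 * q ^ 2 *
      Ex q (fun c : Fin n × Fin M → Bool =>
        (if upr3_r R n k (bm (ex2 c)) p.1 = p.2 then (1 : ℝ) else 0)) := by
    intro p
    have h4 : (fun c : Fin n × Fin M → Bool => (bt (c p) : ℝ) * upr3_g R n k M p.1 p.2 c) =
        fun c => (if upr3_r R n k (bm (ex2 c)) p.1 = p.2 then (1 : ℝ) else 0) *
          ((bt (ex2 c p.1 p.2) : ℝ) - bt (bm (ex2 c) p.1 p.2)) := by
      funext c
      have h5 : ex2 c p.1 p.2 = c p := by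
        simp [ex2]
      unfold upr3_g
      cases h6 : c p with
      | true => simp [bt]
      | false =>
        have h7 : bm (ex2 c) p.1 p.2 = false := by
          by_contra h8
          have h9 := bm_le (ex2 c) p.1 p.2 (by simpa using h8)
          rw [h5, h6] at h9
          exact absurd h9 (by simp)
        rw [h5, h6, h7]
        simp
    rw [h4]
    exact cls hq0 hq1 n M p.1 p.2 p.1.2 p.2.2
      (fun b => if upr3_r R n k b p.1 = p.2 then (1 : ℝ) else 0)
      (fun b => by split_ifs <;> norm_num)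
  have h5 : ∑ p : Fin n × Fin M, Ex q (fun c : Fin n × Fin M → Bool =>
        (if upr3_r R n k (bm (ex2 c)) p.1 = p.2 then (1 : ℝ) else 0)) ≤ n := by
    rw [← Ex_sum]
    calc _ ≤ Ex q (fun _ : Fin n × Fin M → Bool => (n : ℝ)) := by
          refine Ex_le hq0' hq1' fun c => ?_
          rw [Fintype.sum_prod_type]
          have h6 : ∀ x : Fin n, ∑ l : Fin M,
              (if upr3_r R n k (bm (ex2 c)) x = l then (1 : ℝ) else 0) ≤ 1 := by
            intro x
            rw [Fin.sum_univ_eq_sum_range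
              (fun l => if upr3_r R n k (bm (ex2 c)) x = l then (1 : ℝ) else 0) M, sum_ite_eq]
            split_ifs <;> norm_num
          calc _ ≤ ∑ _x : Fin n, (1 : ℝ) := sum_le_sum fun x _ => h6 x
            _ = n := by simp
      _ = n := Ex_const q _
  have h6 : ∑ p : Fin n × Fin M, Ex q (fun c : Fin n × Fin M → Bool =>
      (bt (c p) : ℝ) * upr3_g R n k M p.1 p.2 c) ≤ 8 * q ^ 2 * n := by
    refine (sum_le_sum fun p _ => h3 p).trans ?_
    rw [← mul_sum]
    exact mul_le_mul_of_nonneg_left h5 (by positivity)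
  have h7 : A / q * ∑ p : Fin n × Fin M, Ex q (fun c : Fin n × Fin M → Bool =>
      (bt (c p) : ℝ) * upr3_g R n k M p.1 p.2 c) ≤ 8 * q * A * n := by
    refine (mul_le_mul_of_nonneg_left h6 (div_nonneg hA hq0')).trans (le_of_eq ?_)
    field_simp
  have h8 := mul_le_mul_of_nonneg_left h2 (by linarith : (0 : ℝ) ≤ 1 + A)
  linarith

theorem upr3 {ν : Measure ℝ} [IsProbabilityMeasure ν] {q A : ℝ} (h : Law3 ν q A) (hq0 : 0 < q) (hq1 : q ≤ 1 / 4)
    (L n k : ℕ) (hn : 1 ≤ n) (hk : |(k : ℤ) - (L * n : ℕ)| ≤ n) :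
    et 2 ν ![(n : ℤ), (k : ℤ) - (L * n : ℕ)] ≤ n + (1 + A) *
      Ex q (fun b : Fin n × Fin ((L + 3) * n) → Bool => (wdg (L * n) (ex2 b) n k : ℝ)) +
      8 * q * A * n := by
  have h0 : (L + 3) * n = L * n + 3 * n := by ring
  have hM : L * n + 2 * n < (L + 3) * n := by omega
  have hM1 : n = 1 ∨ L * n + 2 * n + 1 < (L + 3) * n := by omega
  exact upr3_gen h hq0 hq1 (L * n) n k ((L + 3) * n) hM hM1 hk

end Pool.Agent.Lib.FPC
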